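import Pool.Agent.helper48.AGR.Spec

/-!
# MP_def0df_al, row VGA: the condition `VG` for amalgams
-/

set_option autoImplicit false

namespace Pool.Agent.AGR

open Monoid Function

/-- VGA. -/
theorem VGA (hNRM : NRM_stmt) (hTF : TF_stmt) : VGA_stmt := by
  intro L R C _ _ _ f g v hf hg h1 h2
  refine ⟨?_, ?_, ?_⟩
  · exact (inl_injective hf hg).comp h1.inj
  · intro x a
    obtain ⟨b, hb⟩ := hNRM L R C f g v h1 h2 x a
    exact ⟨b, hb⟩
  · intro x hx n hn hp
    obtain ⟨a, ha⟩ := hp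
    obtain ⟨b, hb⟩ := hTF L R C f g v hf hg h1 h2 x hx n hn ⟨a, ha⟩
    exact ⟨b, hb⟩

end Pool.Agent.AGR
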